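import Pool.Agent.MP_92db0f_lc_mul.Limit
import Pool.Agent.MP_92db0f_lc_alg.Final

/-!
The nondeterministic exponential-time machines with access to the oracle and its multilinear
extension, as a system of requirements.
-/

set_option autoImplicit false

namespace Pool.Agent.MP_92db0f_lc_mul

open Turing Computability Lib.helper60 MP_92db0f_lc MP_92db0f_lc_alg

/-! ### queries to the multilinear extension -/

section codes

variable {E : ℕ → Type} {len : ℕ → ℕ} {cod : (i : ℕ) → E i → Fin (len i) → Bool}

lemma mquery_inj (hcod : ∀ i, Function.Injective (cod i)) {n n' i i' : ℕ}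
    {y : Fin n → E i} {y' : Fin n' → E i'} {b b' : ℕ}
    (h : mquery cod i (List.ofFn y) b = mquery cod i' (List.ofFn y') b') :
    (⟨n, i, y⟩ : Pt E) = ⟨n', i', y'⟩ ∧ b = b' := by
  unfold mquery at h
  have h1 := encPair_inj h
  rw [Prod.mk.injEq] at h1
  obtain ⟨h2, h3⟩ := h1
  have h4 := encPair_inj h3
  rw [Prod.mk.injEq] at h4
  obtain ⟨h5, h6⟩ := h4
  have hk : i = i' := encodeNat_inj h2
  subst hk
  refine ⟨?_, encodeNat_inj h5⟩
  have h7 := encList_inj h6
  have h8 : List.ofFn y = List.ofFn y' := by
    refine List.map_injective_iff.2 ?_ h7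
    intro s t hst
    exact hcod i (List.ofFn_injective hst)
  have hn : n = n' := by
    have := congrArg List.length h8
    simpa using this
  subst hn
  rw [List.ofFn_injective h8]

/-- the weight of a ring -/
def wgt (len : ℕ → ℕ) (i : ℕ) : ℕ := len i + (encodeNat i).length + 1

lemma length_mquery (cod : (i : ℕ) → E i → Fin (len i) → Bool) {n : ℕ} (i : ℕ)
    (y : Fin n → E i) (b : ℕ) : cost (wgt len) (.inr ⟨n, i, y⟩ : Pr E) ≤
      (mquery cod i (List.ofFn y) b).length := by
  rcases n with _ | n
  · change 1 ≤ _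
    unfold mquery
    rw [length_encPair]
    omega
  · change len i + (encodeNat i).length + 1 ≤ _
    unfold mquery
    rw [length_encPair, length_encPair, List.ofFn_succ, List.map_cons, encList, length_encPair,
      List.length_ofFn]
    omega

/-- There are few rings of small weight. -/
lemma exists_few (len : ℕ → ℕ) : ∃ I : ℕ → Finset ℕ, (∀ M i, wgt len i ≤ M → i ∈ I M) ∧
    ∀ M, (I M).card ≤ 2 ^ (M + 1) := by
  classical
  choose Z hZ hZ' using exists_short
  refine ⟨fun M => (Z M).image decodeNat, fun M i hi => ?_, fun M => ?_⟩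
  · refine Finset.mem_image.2 ⟨encodeNat i, hZ' M _ ?_, decode_encodeNat i⟩
    unfold wgt at hi
    omega
  · exact Finset.card_image_le.trans (hZ M)

end codes

section oracle

variable {E : ℕ → Type} [∀ i, CommRing (E i)] {len : ℕ → ℕ}
  (cod : (i : ℕ) → E i → Fin (len i) → Bool)

/-- the oracle together with its multilinear extension -/
def orc (A : Set (List Bool)) : Set (List Bool) := join A (mextOracle cod A)

lemma mem_join_false (A B : Set (List Bool)) (u : List Bool) : false :: u ∈ join A B ↔ u ∈ A := by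
  constructor
  · rintro (⟨v, h, hv⟩ | ⟨v, h, _⟩)
    · rw [List.cons.injEq] at h
      rw [h.2]
      exact hv
    · exact absurd h (by simp)
  · intro h
    exact Or.inl ⟨u, rfl, h⟩

lemma mem_join_true (A B : Set (List Bool)) (u : List Bool) : true :: u ∈ join A B ↔ u ∈ B := by
  constructor
  · rintro (⟨v, h, _⟩ | ⟨v, h, hv⟩)
    · exact absurd h (by simp)
    · rw [List.cons.injEq] at h
      rw [h.2]
      exact hv
  · intro h
    exact Or.inr ⟨u, rfl, h⟩

lemma mem_join_nil (A B : Set (List Bool)) : [] ∉ join A B := by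
  rintro (⟨u, h, _⟩ | ⟨u, h, _⟩) <;> exact absurd h (by simp)

/-- the answer to a query depends on one probe -/
lemma exists_prs (hcod : ∀ i, Function.Injective (cod i)) (w : List Bool) :
    ∃ S : Finset (Pr E), wt (wgt len) S ≤ w.length ∧ ∀ A B : Set (List Bool), Agree A B S →
      (w ∈ orc cod A ↔ w ∈ orc cod B) := by
  classical
  rcases w with _ | ⟨b, u⟩
  · refine ⟨∅, by simp, fun A B _ => ?_⟩
    exact iff_of_false (mem_join_nil _ _) (mem_join_nil _ _)
  cases b with
  | false =>
    refine ⟨{.inl u}, ?_, fun A B h => ?_⟩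
    · rw [wt_singleton]
      simp [cost]
    · have h1 : u ∈ A ↔ u ∈ B := h _ (Finset.mem_singleton_self _)
      unfold orc
      rw [mem_join_false, mem_join_false, h1]
  | true =>
    have key : ∀ A : Set (List Bool), (true :: u ∈ orc cod A ↔ u ∈ mextOracle cod A) :=
      fun A => mem_join_true _ _ _
    by_cases hu : ∃ (i n : ℕ) (y : Fin n → E i) (b : Fin (len i)), u = mquery cod i (List.ofFn y) b
    · obtain ⟨i, n, y, b, hu⟩ := hu
      have key2 : ∀ A : Set (List Bool), (u ∈ mextOracle cod A ↔ cod i (mext A y) b = true) := by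
        intro A
        constructor
        · rintro ⟨i', n', y', b', hu', ht⟩
          obtain ⟨h1, h2⟩ := mquery_inj hcod (hu.symm.trans hu')
          have h4 : ∀ (p p' : Pt E) (c : Fin (len p.2.1)) (c' : Fin (len p'.2.1)), p = p' →
              (c : ℕ) = c' → cod p'.2.1 (mext A p'.2.2) c' = true →
              cod p.2.1 (mext A p.2.2) c = true := by
            rintro p p' c c' rfl hc h
            rw [Fin.ext hc]
            exact h
          exact h4 ⟨n, i, y⟩ ⟨n', i', y'⟩ b b' h1 h2 ht
        · intro ht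
          exact ⟨i, n, y, b, hu, ht⟩
      refine ⟨{.inr ⟨n, i, y⟩}, ?_, fun A B h => ?_⟩
      · rw [wt_singleton]
        have := length_mquery cod i y b
        rw [← hu] at this
        rw [List.length_cons]
        omega
      · have h5 : mext A y = mext B y := h _ (Finset.mem_singleton_self _)
        rw [key, key, key2, key2, h5]
    · refine ⟨∅, by simp, fun A B _ => ?_⟩
      rw [key, key]
      refine iff_of_false ?_ ?_
      · rintro ⟨i, n, y, b, h, _⟩
        exact hu ⟨i, n, y, b, h⟩
      · rintro ⟨i, n, y, b, h, _⟩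
        exact hu ⟨i, n, y, b, h⟩

/-- the answers to `N` queries of length at most `M` depend on probes of cost at most `N * M` -/
lemma answers_prs (hcod : ∀ i, Function.Injective (cod i)) {α : Type}
    (q : α × List Bool → List Bool) (a : α) (A : Set (List Bool)) (M N : ℕ)
    (hM : ∀ i < N, (q (a, answers (orc cod A) q a i)).length ≤ M) :
    ∃ S : Finset (Pr E), wt (wgt len) S ≤ N * M ∧ ∀ B : Set (List Bool), Agree A B S → ∀ i ≤ N,
      answers (orc cod A) q a i = answers (orc cod B) q a i := by
  classical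
  induction N with
  | zero =>
    refine ⟨∅, by simp, fun B _ i hi => ?_⟩
    rw [Nat.le_zero.1 hi]
    rfl
  | succ N ih =>
    obtain ⟨S, hS, h⟩ := ih fun i hi => hM i (by omega)
    obtain ⟨S', hS', h'⟩ := exists_prs cod hcod (q (a, answers (orc cod A) q a N))
    have hM' := hM N (by omega)
    refine ⟨S ∪ S', (wt_union_le _ _ _).trans ?_, fun B hB i hi => ?_⟩
    · rw [Nat.succ_mul]
      omega
    rcases Nat.lt_or_ge i (N + 1) with hlt | hge
    · exact h B (hB.mono Finset.subset_union_left) i (by omega)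
    · have hi' : i = N + 1 := le_antisymm hi hge
      subst hi'
      have h1 := h B (hB.mono Finset.subset_union_left) N le_rfl
      have h2 := h' A B (hB.mono Finset.subset_union_right)
      rw [answers, answers, ← h1]
      congr 2
      exact propext h2 ▸ rfl

end oracle

/-! ### levels -/

lemma length_strFun (φ : CNF) (T : Polynomial ℕ) : ∃ Q : Polynomial ℕ, ∀ u : List Bool,
    (strFun φ T u).length ≤ Q.eval u.length := by
  obtain ⟨P, hP⟩ := (PT_strFun φ T).size
  refine ⟨P.comp (4 * Polynomial.X + 1), fun u => ?_⟩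
  have h1 := length_lt_tsize (strFun φ T u)
  have h2 := hP u
  have h3 : tsize u ≤ u.length * (3 + 1) + 1 := tsize_le_of_forall fun b _ => tsize_bool_le b
  have h4 := evalMono P h3
  dsimp only at h4 h2
  rw [Polynomial.eval_comp]
  have h5 : Polynomial.eval u.length (4 * Polynomial.X + 1 : Polynomial ℕ) = u.length * (3 + 1) + 1 := by
    simp
    ring
  rw [h5]
  omega

/-- the level bounds the logarithm of the total length of the queries -/
lemma exists_levelB (μ : Mach) (e : ℕ) : ∃ (κ : ℕ) (Q : Polynomial ℕ), e + 1 ≤ κ ∧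
    (∀ z : List Bool × List Bool, (μ.q z).length ≤ Q.eval (2 * z.1.length + 2 + z.2.length)) ∧
    ∀ n L : ℕ, L ≤ 2 * n + 2 + 2 ^ (n ^ μ.2.2.2 + μ.2.2.2) →
      μ.2.2.1.eval L * Q.eval (2 * L + 2 + μ.2.2.1.eval L) ≤ 2 ^ ((n + κ) ^ κ) := by
  obtain ⟨Q, hQ⟩ := length_strFun μ.1.1 μ.1.2
  obtain ⟨⟨φ, T⟩, ⟨φ', T'⟩, P, k⟩ := μ
  obtain ⟨κ, h1, h2⟩ := exists_level ((φ, T), (φ', T'),
    P * Q.comp (2 * Polynomial.X + 2 + P), k) e
  refine ⟨κ, Q, h1, fun z => ?_, fun n L hL => ?_⟩
  · have h3 := hQ (encPair z)
    have h4 : (encPair z).length = 2 * z.1.length + 2 + z.2.length := length_encPair z.1 z.2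
    rw [h4] at h3
    exact h3
  · refine le_trans ?_ (h2 n)
    have h3 := evalMono (P * Q.comp (2 * Polynomial.X + 2 + P)) hL
    refine le_trans (le_of_eq ?_) h3
    simp [Polynomial.eval_mul, Polynomial.eval_comp]

/-- the code of the block `u` of the requirement `(e, x)` -/
def cdR (lv : ℕ → List Bool → ℕ) (r : ℕ × List Bool) (u : List Bool) : List Bool :=
  encPair (List.replicate (4 * (5 * lv r.1 r.2 + 10)) true,
    encPair (List.replicate r.1 true, encPair (r.2, u)))

/-- **The system of requirements.** -/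
theorem exists_sys {E : ℕ → Type} [∀ i, CommRing (E i)] {len : ℕ → ℕ}
    (cod : (i : ℕ) → E i → Fin (len i) → Bool) (hcod : ∀ i, Function.Injective (cod i))
    (g : ℕ → Mach) :
    ∃ (Y : Sys E) (κ : ℕ → ℕ) (f : ℕ × List Bool → Y.Req),
      (∀ r, Y.lv (f r) = (r.2.length + κ r.1) ^ κ r.1) ∧
      (∀ r, Y.cd (f r) = cdR (fun e x => (x.length + κ e) ^ κ e) r) ∧
      (∀ A r, Y.acc A (f r) ↔ (g r.1).Acc (orc cod A) r.2) := by
  classical
  have hκ := fun e => exists_levelB (g e) e
  choose κ Q hκ1 hQ hκ2 using hκ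
  let lv : ℕ → List Bool → ℕ := fun e x => (x.length + κ e) ^ κ e
  have hlv : ∀ e x, e ≤ lv e x ∧ x.length ≤ lv e x := by
    intro e x
    have h1 := hκ1 e
    have h2 : x.length + κ e ≤ (x.length + κ e) ^ κ e := Nat.le_self_pow (by omega) _
    change e ≤ (x.length + κ e) ^ κ e ∧ x.length ≤ (x.length + κ e) ^ κ e
    omega
  choose Z hZ hZ' using exists_short
  have hfin : ∀ i, Finite (E i) := fun i => Finite.of_injective (cod i) (hcod i)
  obtain ⟨I, hI, hI'⟩ := exists_few len
  obtain ⟨pat, hpat⟩ := exists_universal (E := E) (w := wgt len)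
    (fun i => by unfold wgt; omega)
    (fun i => by
      refine (Nat.card_le_card_of_injective (cod i) (hcod i)).trans ?_
      rw [Nat.card_eq_fintype_card, Fintype.card_fun, Fintype.card_bool, Fintype.card_fin]
      exact Nat.pow_le_pow_right (by norm_num) (by unfold wgt; omega))
    hI hI'
  refine ⟨{ w := wgt len
            pat := pat
            hpat := hpat
            Req := ℕ × List Bool
            lv := fun r => lv r.1 r.2
            Rq := fun m => ((Finset.range (m + 1)) ×ˢ Z m).filter fun r => lv r.1 r.2 = m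
            mem_Rq := ?_
            card_Rq := ?_
            cd := cdR lv
            cd_inj := ?_
            cd_len := ?_
            acc := fun A r => (g r.1).Acc (orc cod A) r.2
            use := ?_ }, κ, id, fun r => rfl, fun r => rfl, fun A r => Iff.rfl⟩
  · rintro m ⟨e, x⟩
    rw [Finset.mem_filter, Finset.mem_product, Finset.mem_range]
    constructor
    · exact fun h => h.2
    · intro h
      obtain ⟨h1, h2⟩ := hlv e x
      dsimp only at h ⊢
      rw [h] at h1 h2
      exact ⟨⟨by omega, hZ' m x h2⟩, h⟩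
  · intro m
    refine (Finset.card_filter_le _ _).trans ?_
    rw [Finset.card_product, Finset.card_range]
    have h1 : m + 1 ≤ 2 ^ (m + 1) := Nat.lt_two_pow_self.le
    calc (m + 1) * (Z m).card ≤ 2 ^ (m + 1) * 2 ^ (m + 1) := Nat.mul_le_mul h1 (hZ m)
      _ = 2 ^ (2 * m + 2) := by rw [← pow_add]; congr 1; ring
  · rintro ⟨e, x⟩ u ⟨e', x'⟩ u' h
    unfold cdR at h
    have h1 := encPair_inj h
    rw [Prod.mk.injEq] at h1
    have h2 := encPair_inj h1.2
    rw [Prod.mk.injEq] at h2
    have h3 := encPair_inj h2.2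
    rw [Prod.mk.injEq] at h3
    have h4 : e = e' := by
      have := congrArg List.length h2.1
      simpa using this
    exact ⟨Prod.ext h4 h3.1, h3.2⟩
  · rintro ⟨e, x⟩ u
    unfold cdR
    rw [length_encPair, List.length_replicate]
    dsimp only
    omega
  · rintro A ⟨e, x⟩ ⟨y, hy, hacc⟩
    have hL : (encPair (x, y)).length ≤ 2 * x.length + 2 + 2 ^ (x.length ^ (g e).2.2.2 +
        (g e).2.2.2) := by
      rw [length_encPair]
      dsimp only at hy
      omega
    obtain ⟨S, hS, h⟩ := answers_prs cod hcod (g e).q (encPair (x, y)) A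
      ((Q e).eval (2 * (encPair (x, y)).length + 2 + (g e).2.2.1.eval (encPair (x, y)).length))
      ((g e).2.2.1.eval (encPair (x, y)).length) (fun i hi => by
        refine (hQ e _).trans (evalMono (Q e) ?_)
        dsimp only
        rw [answers_length]
        omega)
    refine ⟨S, hS.trans (hκ2 e _ _ hL), fun B hB => ⟨y, hy, ?_⟩⟩
    unfold Mach.Acc1 at hacc ⊢
    rw [← h B hB _ le_rfl]
    exact hacc

end Pool.Agent.MP_92db0f_lc_mul
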