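import Mathlib

/-!
A pattern of additions and removals in which every small system of equations over finite abelian
groups has a solution: shattering, the pigeonhole principle and counting.
-/

set_option autoImplicit false

namespace Pool.Agent.MP_92db0f_lc_mul

open Finset

/-- the number of small subsets -/
lemma card_small (X : Type) [Fintype X] [DecidableEq X] (M : ℕ) :
    (univ.filter fun s : Finset X => s.card ≤ M).card ≤ (Fintype.card X + 1) ^ M := by
  classical
  have h : (univ.filter fun s : Finset X => s.card ≤ M) ⊆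
      (univ : Finset (Fin M → Option X)).image fun f => univ.filter fun x => ∃ j, f j = some x := by
    intro s hs
    have hs' : s.card ≤ M := (mem_filter.1 hs).2
    rw [mem_image]
    refine ⟨fun j => if h : (j : ℕ) < s.card then some (s.equivFin.symm ⟨j, h⟩ : X) else none,
      mem_univ _, ?_⟩
    ext x
    simp only [mem_filter, mem_univ, true_and]
    constructor
    · rintro ⟨j, hj⟩
      split_ifs at hj with h1
      rw [Option.some.injEq] at hj
      rw [← hj]
      exact (s.equivFin.symm ⟨j, h1⟩).2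
    · intro hx
      refine ⟨⟨s.equivFin ⟨x, hx⟩, lt_of_lt_of_le (Fin.is_lt _) hs'⟩, ?_⟩
      simp
  refine (card_le_card h).trans (card_image_le.trans ?_)
  rw [card_univ, Fintype.card_fun, Fintype.card_option, Fintype.card_fin]

/-- The patterns `C` in which a given system of equations has no solution `T` outside of `R` with an
addition. -/
lemma card_bad_patterns {U ι : Type} [Fintype U] [DecidableEq U] (S : Finset ι) (G : ι → Type)
    [∀ i, AddCommGroup (G i)] [∀ i, Finite (G i)] (c : ι → ℕ) (hG : ∀ i, Nat.card (G i) ≤ 2 ^ c i)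
    (v : (i : ι) → U → G i) (M : ℕ) (hM : ∑ i ∈ S, c i ≤ M) (R : Finset U) (B : Finset (Finset U))
    (hB : ∀ C ∈ B, ∀ T : Finset U, Disjoint T R → (T \ C).Nonempty →
      ∃ i ∈ S, ∑ a ∈ T \ C, v i a ≠ ∑ a ∈ T ∩ C, v i a) :
    B.card ≤ (Fintype.card U + 1) ^ (M + R.card) := by
  classical
  refine (card_le_card_shatterer B).trans ((card_le_card ?_).trans (card_small U _))
  intro D' hD'
  rw [mem_shatterer] at hD'
  rw [mem_filter]
  refine ⟨mem_univ _, ?_⟩
  by_contra hlt'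
  push Not at hlt'
  obtain ⟨D, hD, hDR, hlt⟩ : ∃ D, B.Shatters D ∧ Disjoint D R ∧ M < D.card := by
    refine ⟨D' \ R, hD'.mono_right sdiff_subset, sdiff_disjoint, ?_⟩
    have := le_card_sdiff R D'
    omega
  -- two subsets with the same sums give a solution in some pattern
  have key : ∀ T₁ T₂ : Finset U, T₁ ⊆ D → T₂ ⊆ D → (T₁ \ T₂).Nonempty →
      (∀ i ∈ S, ∑ a ∈ T₁, v i a = ∑ a ∈ T₂, v i a) → False := by
    intro T₁ T₂ h₁ h₂ hne hsum
    obtain ⟨C, hC, hDC⟩ := hD (sdiff_subset.trans h₂ : T₂ \ T₁ ⊆ D)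
    have hmem : ∀ a ∈ D, (a ∈ C ↔ a ∈ T₂ \ T₁) := by
      intro a ha
      rw [← hDC, mem_inter]
      exact ⟨fun h => ⟨ha, h⟩, fun h => h.2⟩
    have e1 : ((T₁ \ T₂) ∪ (T₂ \ T₁)) \ C = T₁ \ T₂ := by
      ext a
      rw [mem_sdiff, mem_union]
      constructor
      · rintro ⟨h | h, h'⟩
        · exact h
        · exact absurd ((hmem a (h₂ (mem_sdiff.1 h).1)).2 h) h'
      · intro h
        refine ⟨Or.inl h, fun h' => ?_⟩
        exact (mem_sdiff.1 ((hmem a (h₁ (mem_sdiff.1 h).1)).1 h')).2 (mem_sdiff.1 h).1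
    have e2 : ((T₁ \ T₂) ∪ (T₂ \ T₁)) ∩ C = T₂ \ T₁ := by
      ext a
      rw [mem_inter, mem_union]
      constructor
      · rintro ⟨h | h, h'⟩
        · exact (hmem a (h₁ (mem_sdiff.1 h).1)).1 h'
        · exact h
      · intro h
        exact ⟨Or.inr h, (hmem a (h₂ (mem_sdiff.1 h).1)).2 h⟩
    have hdis : Disjoint ((T₁ \ T₂) ∪ (T₂ \ T₁)) R :=
      disjoint_of_subset_left (union_subset (sdiff_subset.trans h₁) (sdiff_subset.trans h₂)) hDR
    obtain ⟨i, hi, hne'⟩ := hB C hC ((T₁ \ T₂) ∪ (T₂ \ T₁)) hdis (by rw [e1]; exact hne)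
    apply hne'
    rw [e1, e2]
    have h4 := sum_inter_add_sum_sdiff T₁ T₂ (v i)
    have h5 := sum_inter_add_sum_sdiff T₂ T₁ (v i)
    rw [inter_comm] at h5
    exact add_left_cancel (h4.trans ((hsum i hi).trans h5.symm))
  have : ∀ i, Fintype (G i) := fun i => Fintype.ofFinite _
  let f : Finset U → ((i : S) → G i) := fun T i => ∑ a ∈ T, v i a
  have hcard : (univ : Finset ((i : S) → G i)).card < D.powerset.card := by
    rw [card_univ, Fintype.card_pi, card_powerset]
    calc ∏ i : S, Fintype.card (G i) ≤ ∏ i : S, 2 ^ c i := by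
          refine prod_le_prod (fun _ _ => Nat.zero_le _) fun i _ => ?_
          rw [← Nat.card_eq_fintype_card]
          exact hG i
      _ = 2 ^ ∑ i ∈ S, c i := by rw [← prod_pow_eq_pow_sum, ← prod_coe_sort S]
      _ ≤ 2 ^ M := Nat.pow_le_pow_right (by norm_num) hM
      _ < 2 ^ D.card := Nat.pow_lt_pow_right (by norm_num) hlt
  obtain ⟨T₁, h₁, T₂, h₂, hne, he⟩ := exists_ne_map_eq_of_card_lt_of_maps_to hcard
    (f := f) (fun _ _ => mem_coe.2 (mem_univ _))
  rw [mem_powerset] at h₁ h₂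
  have hsum : ∀ i ∈ S, ∑ a ∈ T₁, v i a = ∑ a ∈ T₂, v i a := fun i hi => congrFun he ⟨i, hi⟩
  by_cases h : (T₁ \ T₂).Nonempty
  · exact key T₁ T₂ h₁ h₂ h hsum
  · refine key T₂ T₁ h₂ h₁ ?_ fun i hi => (hsum i hi).symm
    rw [not_nonempty_iff_eq_empty, sdiff_eq_empty_iff_subset] at h
    rw [nonempty_iff_ne_empty]
    intro h'
    rw [sdiff_eq_empty_iff_subset] at h'
    exact hne (Subset.antisymm h h')

lemma numeric (q : ℕ) (hq : 3 ≤ q) : 8 * (q + 2) < 4 ^ q := by
  induction q, hq using Nat.le_induction with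
  | base => norm_num
  | succ q hq ih =>
    rw [pow_succ]
    omega

lemma numeric' (l : ℕ) (hl : 12 ≤ l) :
    (l + 3) * (2 ^ (l / 4) * (2 ^ (l / 4) + 3)) < 2 ^ l := by
  set q := l / 4 with hq
  have h1 : 3 ≤ q := by omega
  have h2 : l ≤ 4 * q + 3 := by omega
  have h3 : 4 * q ≤ l := by omega
  have h4 := numeric q h1
  have h5 : (4 : ℕ) ^ q = 2 ^ q * 2 ^ q := by
    rw [show (4 : ℕ) = 2 * 2 from rfl, mul_pow]
  have h6 : 8 ≤ 2 ^ q := by
    calc 8 = 2 ^ 3 := by norm_num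
      _ ≤ 2 ^ q := Nat.pow_le_pow_right (by norm_num) h1
  have h7 : (2 : ℕ) ^ (4 * q) = 4 ^ q * 4 ^ q := by
    rw [h5, ← pow_add, ← pow_add]
    congr 1
    ring
  refine lt_of_lt_of_le ?_ (Nat.pow_le_pow_right (by norm_num) h3)
  rw [h7]
  calc (l + 3) * (2 ^ q * (2 ^ q + 3)) ≤ (4 * (q + 2)) * (2 * 4 ^ q) := by
        refine Nat.mul_le_mul (by omega) ?_
        rw [h5]
        nlinarith
    _ = (8 * (q + 2)) * 4 ^ q := by ring
    _ < 4 ^ q * 4 ^ q := Nat.mul_lt_mul_of_pos_right h4 (by positivity)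

/-- **The universal pattern.** -/
theorem exists_pattern {E : ℕ → Type} [∀ i, AddCommGroup (E i)] [∀ i, Finite (E i)] {w : ℕ → ℕ}
    (hw1 : ∀ i, 1 ≤ w i) (hw : ∀ i, Nat.card (E i) ≤ 2 ^ w i) {I : ℕ → Finset ℕ}
    (hI : ∀ M i, w i ≤ M → i ∈ I M) (hI' : ∀ M, (I M).card ≤ 2 ^ (M + 1)) (l : ℕ)
    (hl : 12 ≤ l) (v : (i : ℕ) → (Fin l → E i) → (Fin l → Bool) → E i) :
    ∃ C : Finset (Fin l → Bool), ∀ S : Finset ((i : ℕ) × (Fin l → E i)),
      ∑ p ∈ S, w p.1 ≤ 2 ^ (l / 4) → ∀ R : Finset (Fin l → Bool), R.card ≤ 2 ^ (l / 4) →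
      ∃ T : Finset (Fin l → Bool), Disjoint T R ∧ (T \ C).Nonempty ∧
        ∀ p ∈ S, ∑ a ∈ T \ C, v p.1 p.2 a = ∑ a ∈ T ∩ C, v p.1 p.2 a := by
  classical
  have : ∀ i, Fintype (E i) := fun i => Fintype.ofFinite _
  set M := 2 ^ (l / 4) with hM
  have hM1 : 1 ≤ M := Nat.one_le_two_pow
  let I' : Finset ℕ := (I M).filter fun i => w i ≤ M
  let X : Type := (i : I') × (Fin l → E i)
  let U : Type := Fin l → Bool
  let Bad : Finset X × Finset U → Finset (Finset U) := fun s => univ.filter fun C =>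
    ∀ T : Finset U, Disjoint T s.2 → (T \ C).Nonempty →
      ∃ p ∈ s.1, ∑ a ∈ T \ C, v p.1 p.2 a ≠ ∑ a ∈ T ∩ C, v p.1 p.2 a
  let Q : Finset (Finset X) := univ.filter fun s : Finset X => ∑ p ∈ s, w p.1 ≤ M
  let Q' : Finset (Finset U) := univ.filter fun R : Finset U => R.card ≤ M
  by_contra hcon
  push Not at hcon
  -- every pattern is bad for some small system
  have hcover : (univ : Finset (Finset U)) ⊆ (Q ×ˢ Q').biUnion Bad := by
    intro C _
    obtain ⟨S, hS, R, hR, hbad⟩ := hcon C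
    let e : X → (i : ℕ) × (Fin l → E i) := fun x => ⟨x.1, x.2⟩
    have he : Function.Injective e := by
      rintro ⟨i, y⟩ ⟨i', y'⟩ h
      rw [Sigma.mk.injEq] at h
      obtain ⟨h1, h2⟩ := h
      have h3 : i = i' := Subtype.ext h1
      subst h3
      have h4 : y = y' := eq_of_heq h2
      rw [h4]
    let s : Finset X := univ.filter fun x => e x ∈ S
    have hsum : ∑ p ∈ s, w p.1 ≤ ∑ p ∈ S, w p.1 := by
      have h1 : ∑ p ∈ s, w p.1 = ∑ p ∈ s.image e, w p.1 := by
        rw [sum_image fun a _ b _ h => he h]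
      rw [h1]
      apply sum_le_sum_of_subset
      intro p hp
      obtain ⟨x, hx, rfl⟩ := mem_image.1 hp
      exact (mem_filter.1 hx).2
    rw [mem_biUnion]
    refine ⟨(s, R), mem_product.2 ⟨mem_filter.2 ⟨mem_univ _, hsum.trans hS⟩,
      mem_filter.2 ⟨mem_univ _, hR⟩⟩, mem_filter.2 ⟨mem_univ _, ?_⟩⟩
    intro T hTR hT
    obtain ⟨⟨i, y⟩, hp, hne⟩ := hbad T hTR hT
    have hi : w i ≤ M := by
      have h1 : w i ≤ ∑ p ∈ S, w p.1 :=
        single_le_sum (f := fun p : (i : ℕ) × (Fin l → E i) => w p.1) (fun _ _ => Nat.zero_le _) hp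
      omega
    exact ⟨⟨⟨i, mem_filter.2 ⟨hI M i hi, hi⟩⟩, y⟩, mem_filter.2 ⟨mem_univ _, hp⟩, hne⟩
  -- counting
  have hU : Fintype.card U + 1 ≤ 2 ^ (l + 1) := by
    have h2 : Fintype.card U = 2 ^ l := by simp [U]
    rw [h2, pow_succ]
    have := Nat.one_le_two_pow (n := l)
    omega
  have hBad : ∀ s ∈ Q ×ˢ Q', (Bad s).card ≤ 2 ^ ((l + 1) * (2 * M)) := by
    intro s hs
    obtain ⟨hs1, hs2⟩ := mem_product.1 hs
    have h1 := card_bad_patterns s.1 (fun p : X => E p.1) (fun p => w p.1)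
      (fun p => hw p.1) (fun p a => v p.1 p.2 a) M (mem_filter.1 hs1).2 s.2 (Bad s)
      (fun C hC => (mem_filter.1 hC).2)
    refine h1.trans ?_
    rw [pow_mul]
    have h3 : s.2.card ≤ M := (mem_filter.1 hs2).2
    exact (Nat.pow_le_pow_right (by omega) (by omega : M + s.2.card ≤ 2 * M)).trans
      (Nat.pow_le_pow_left hU _)
  have hX : Fintype.card X + 1 ≤ 2 ^ ((l + 3) * M) := by
    have h1 : Fintype.card X ≤ 2 ^ (M + 1) * 2 ^ (M * l) := by
      rw [Fintype.card_sigma]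
      calc ∑ i : I', Fintype.card (Fin l → E i) ≤ ∑ _i : I', 2 ^ (M * l) := by
            refine sum_le_sum fun i _ => ?_
            rw [Fintype.card_fun, Fintype.card_fin, ← Nat.card_eq_fintype_card, pow_mul]
            exact Nat.pow_le_pow_left ((hw i).trans
              (Nat.pow_le_pow_right (by norm_num) (mem_filter.1 i.2).2)) l
        _ = I'.card * 2 ^ (M * l) := by rw [sum_const, card_univ, Fintype.card_coe, smul_eq_mul]
        _ ≤ 2 ^ (M + 1) * 2 ^ (M * l) :=
            Nat.mul_le_mul_right _ ((card_filter_le _ _).trans (hI' M))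
    have h3 : 2 ^ (M + 1 + M * l + 1) ≤ 2 ^ ((l + 3) * M) :=
      Nat.pow_le_pow_right (by norm_num) (by nlinarith)
    rw [← pow_add] at h1
    rw [pow_succ] at h3
    have h4 := Nat.one_le_two_pow (n := M + 1 + M * l)
    omega
  have hQ : Q.card ≤ 2 ^ ((l + 3) * M * M) := by
    have h1 : Q ⊆ univ.filter fun s : Finset X => s.card ≤ M := by
      intro s hs
      refine mem_filter.2 ⟨mem_univ _, ?_⟩
      have h2 := (mem_filter.1 hs).2
      refine le_trans ?_ h2
      rw [card_eq_sum_ones]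
      exact sum_le_sum fun p _ => hw1 _
    refine (card_le_card h1).trans ((card_small X M).trans ?_)
    rw [pow_mul]
    exact Nat.pow_le_pow_left hX M
  have hQ' : Q'.card ≤ 2 ^ ((l + 1) * M) := by
    refine (card_small U M).trans ?_
    rw [pow_mul]
    exact Nat.pow_le_pow_left hU M
  have h1 := (card_le_card hcover).trans card_biUnion_le
  have h2 := h1.trans (sum_le_card_nsmul _ _ _ hBad)
  rw [smul_eq_mul, card_univ, Fintype.card_finset, card_product] at h2
  have h3 : Fintype.card U = 2 ^ l := by simp [U]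
  rw [h3] at h2
  have h4 : Q.card * Q'.card * 2 ^ ((l + 1) * (2 * M)) ≤ 2 ^ ((l + 3) * (M * (M + 3))) := by
    refine (Nat.mul_le_mul_right _ (Nat.mul_le_mul hQ hQ')).trans ?_
    rw [← pow_add, ← pow_add]
    exact Nat.pow_le_pow_right (by norm_num) (by nlinarith)
  have h5 : 2 ^ ((l + 3) * (M * (M + 3))) < 2 ^ 2 ^ l :=
    Nat.pow_lt_pow_right (by norm_num) (numeric' l hl)
  omega

end Pool.Agent.MP_92db0f_lc_mul
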