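import Pool.Agent.MP_92db0f_lc_mul.State
import Pool.Agent.MP_92db0f_lc_mul.Pattern

/-!
Additions and removals of strings that no probe sees.
-/

set_option autoImplicit false

namespace Pool.Agent.MP_92db0f_lc_mul

/-! ### the multilinear extension -/

section mext

variable {E : Type} [CommRing E]

/-- the multilinear indicator of a string -/
def del {n : ℕ} (x : Fin n → Bool) (y : Fin n → E) : E := ∏ j, (if x j then y j else 1 - y j)

lemma del_append {m n : ℕ} (a : Fin m → Bool) (b : Fin n → Bool) (y : Fin (m + n) → E) :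
    del (Fin.append a b) y = del a (fun j => y (Fin.castAdd n j)) *
      del b (fun j => y (Fin.natAdd m j)) := by
  unfold del
  rw [Fin.prod_univ_add]
  simp only [Fin.append_left, Fin.append_right]

open Classical in
lemma mext_eq (A : Set (List Bool)) {n : ℕ} (y : Fin n → E) :
    mext A y = ∑ x : Fin n → Bool, if List.ofFn x ∈ A then del x y else 0 := by
  unfold mext del
  congr

open Classical in
lemma mext_of_ne {A A' : Set (List Bool)} {n : ℕ} (h : ∀ w : List Bool, w.length = n → (w ∈ A ↔ w ∈ A'))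
    (y : Fin n → E) : mext A y = mext A' y := by
  rw [mext_eq, mext_eq]
  refine Finset.sum_congr rfl fun x _ => ?_
  simp only [h (List.ofFn x) (List.length_ofFn)]

open Classical in
lemma mext_union (A : Set (List Bool)) {n : ℕ} (W : Finset (Fin n → Bool))
    (hW : ∀ x ∈ W, List.ofFn x ∉ A) (y : Fin n → E) :
    mext (A ∪ {w | ∃ x ∈ W, w = List.ofFn x}) y = mext A y + ∑ x ∈ W, del x y := by
  have h1 : ∑ x ∈ W, del x y = ∑ x : Fin n → Bool, if x ∈ W then del x y else 0 := by
    rw [← Finset.sum_filter]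
    congr 1
    ext x
    simp
  rw [mext_eq, mext_eq, h1, ← Finset.sum_add_distrib]
  refine Finset.sum_congr rfl fun x _ => ?_
  by_cases hx : x ∈ W
  · have h2 : List.ofFn x ∈ A ∪ {w | ∃ x ∈ W, w = List.ofFn x} := Or.inr ⟨x, hx, rfl⟩
    rw [if_pos h2, if_neg (hW x hx), if_pos hx, zero_add]
  · rw [if_neg hx, add_zero]
    have h2 : List.ofFn x ∈ A ∪ {w | ∃ x ∈ W, w = List.ofFn x} ↔ List.ofFn x ∈ A := by
      constructor
      · rintro (h | ⟨x', hx', h⟩)
        · exact h
        · exfalso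
          rw [List.ofFn_injective h] at hx
          exact hx hx'
      · exact Or.inl
    by_cases h3 : List.ofFn x ∈ A
    · rw [if_pos (h2.2 h3), if_pos h3]
    · rw [if_neg (fun h => h3 (h2.1 h)), if_neg h3]

end mext

/-! ### the pattern -/

section block

variable {E : ℕ → Type} [∀ i, CommRing (E i)]

open Classical in
/-- In the pattern `pat` (strings outside of `pat` can be added, strings in `pat` can be removed)
every small system of equations has a solution with an addition, also outside of a small set. -/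
def Universal (E : ℕ → Type) [∀ i, CommRing (E i)] (w : ℕ → ℕ) (pat : Set (List Bool)) : Prop :=
  ∀ l, 12 ≤ l → ∀ S : Finset ((i : ℕ) × (Fin l → E i)), ∑ p ∈ S, w p.1 ≤ 2 ^ (l / 4) →
    ∀ R : Finset (Fin l → Bool), R.card ≤ 2 ^ (l / 4) →
    ∃ T : Finset (Fin l → Bool), Disjoint T R ∧ (∃ a ∈ T, List.ofFn a ∉ pat) ∧ ∀ p ∈ S,
      ∑ a ∈ T.filter (fun a => List.ofFn a ∉ pat), del a p.2 =
        ∑ a ∈ T.filter (fun a => List.ofFn a ∈ pat), del a p.2

lemma exists_universal [∀ i, Finite (E i)] {w : ℕ → ℕ}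
    (hw1 : ∀ i, 1 ≤ w i) (hw : ∀ i, Nat.card (E i) ≤ 2 ^ w i) {I : ℕ → Finset ℕ}
    (hI : ∀ M i, w i ≤ M → i ∈ I M) (hI' : ∀ M, (I M).card ≤ 2 ^ (M + 1)) :
    ∃ pat, Universal E w pat := by
  classical
  have h : ∀ l, ∃ C : Finset (Fin l → Bool), 12 ≤ l → ∀ S : Finset ((i : ℕ) × (Fin l → E i)),
      ∑ p ∈ S, w p.1 ≤ 2 ^ (l / 4) → ∀ R : Finset (Fin l → Bool), R.card ≤ 2 ^ (l / 4) →
      ∃ T : Finset (Fin l → Bool), Disjoint T R ∧ (T \ C).Nonempty ∧
        ∀ p ∈ S, ∑ a ∈ T \ C, del a p.2 = ∑ a ∈ T ∩ C, del a p.2 := by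
    intro l
    by_cases hl : 12 ≤ l
    · obtain ⟨C, hC⟩ := exists_pattern hw1 hw hI hI' l hl (fun _ y a => del a y)
      exact ⟨C, fun _ => hC⟩
    · exact ⟨∅, fun h => absurd h hl⟩
  choose C hC using h
  refine ⟨{w | ∃ (l : ℕ) (a : Fin l → Bool), a ∈ C l ∧ w = List.ofFn a}, ?_⟩
  intro l hl S hS R hR
  have hmem : ∀ a : Fin l → Bool, List.ofFn a ∈ {w | ∃ (l : ℕ) (a : Fin l → Bool), a ∈ C l ∧
      w = List.ofFn a} ↔ a ∈ C l := by
    intro a
    constructor
    · rintro ⟨l', a', ha', h⟩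
      have hl' : l = l' := by
        have := congrArg List.length h
        simpa using this
      subst hl'
      rw [List.ofFn_injective h]
      exact ha'
    · intro ha
      exact ⟨l, a, ha, rfl⟩
  obtain ⟨T, hTR, ⟨a, ha⟩, hT⟩ := hC l hl S hS R hR
  rw [Finset.mem_sdiff] at ha
  refine ⟨T, hTR, ⟨a, ha.1, fun h => ha.2 ((hmem a).1 h)⟩, fun p hp => ?_⟩
  have e1 : T.filter (fun a => List.ofFn a ∉ {w | ∃ (l : ℕ) (a : Fin l → Bool), a ∈ C l ∧
      w = List.ofFn a}) = T \ C l := by
    ext a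
    rw [Finset.mem_filter, hmem, Finset.mem_sdiff]
  have e2 : T.filter (fun a => List.ofFn a ∈ {w | ∃ (l : ℕ) (a : Fin l → Bool), a ∈ C l ∧
      w = List.ofFn a}) = T ∩ C l := by
    ext a
    rw [Finset.mem_filter, hmem, Finset.mem_inter]
  rw [e1, e2]
  exact hT p hp

lemma sum_image_le {α β : Type} [DecidableEq β] (s : Finset α) (f : α → β) (g : β → ℕ) :
    ∑ b ∈ s.image f, g b ≤ ∑ a ∈ s, g (f a) := by
  classical
  induction s using Finset.induction_on with
  | empty => simp
  | insert a s ha ih =>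
    rw [Finset.image_insert, Finset.sum_insert ha]
    by_cases h : f a ∈ s.image f
    · rw [Finset.insert_eq_of_mem h]
      omega
    · rw [Finset.sum_insert h]
      omega

/-- **The block.** -/
theorem exists_block {w : ℕ → ℕ} {pat : Set (List Bool)} (hpat : Universal E w pat)
    (A : Set (List Bool)) (S : Finset (Pr E)) (l : ℕ) (hl : 12 ≤ l) (z : Fin l → Bool)
    (hz : ∀ a b : Fin l → Bool, List.ofFn (Fin.append z (Fin.append a b)) ∈ A ↔
      (List.ofFn a ∈ pat ∧ List.ofFn b ∉ pat))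
    (hS : wt w S ≤ 2 ^ (l / 4)) :
    ∃ (B : Set (List Bool)) (T : Finset (Fin l → Bool)) (b : Fin l → Bool), b ∈ T ∧
      List.ofFn b ∉ pat ∧
      (∀ w, w ∈ B ↔ (w ∈ A ∧ ¬ ∃ a ∈ T, List.ofFn a ∈ pat ∧
          w = List.ofFn (Fin.append z (Fin.append a b))) ∨
        ∃ a ∈ T, List.ofFn a ∉ pat ∧ w = List.ofFn (Fin.append z (Fin.append a b))) ∧
      Agree A B S := by
  classical
  -- the two kinds of probes
  let S₁ : Finset (List Bool) := S.toLeft
  let S₂ : Finset (Pt E) := S.toRight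
  have hwt : wt w S = S₁.card + ∑ p ∈ S₂, (if p.1 = 0 then 1 else w p.2.1) := by
    have h0 : wt w S = ∑ p ∈ S.toLeft.disjSum S.toRight, cost w p := by
      rw [Finset.toLeft_disjSum_toRight]
      rfl
    rw [h0, Finset.sum_disjSum, Finset.card_eq_sum_ones]
    rfl
  -- first parts that occur in direct probes
  let R : Finset (Fin l → Bool) := S₁.image fun u j => u.getD (l + (j : ℕ)) false
  have hR : R.card ≤ S₁.card := Finset.card_image_le
  have hmid : ∀ (a b : Fin l → Bool) (j : Fin l),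
      (List.ofFn (Fin.append z (Fin.append a b))).getD (l + (j : ℕ)) false = a j := by
    intro a b j
    have hj : l + (j : ℕ) < l + (l + l) := by have := j.2; omega
    rw [List.getD_eq_getElem _ _ (by rw [List.length_ofFn]; exact hj), List.getElem_ofFn]
    have h1 : (⟨l + (j : ℕ), hj⟩ : Fin (l + (l + l))) = Fin.natAdd l (Fin.castAdd l j) := rfl
    rw [h1, Fin.append_right, Fin.append_left]
  have hinj : ∀ a b a' b' : Fin l → Bool, Fin.append z (Fin.append a b) =
      Fin.append z (Fin.append a' b') → a = a' := by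
    intro a b a' b' h
    funext j
    rw [← hmid a b j, h, hmid]
  -- the system of equations
  let mid : Pt E → (i : ℕ) × (Fin l → E i) := fun p =>
    ⟨p.2.1, fun j => if h : l + (j : ℕ) < p.1 then p.2.2 ⟨l + j, h⟩ else 0⟩
  let S' : Finset ((i : ℕ) × (Fin l → E i)) := (S₂.filter fun p => p.1 ≠ 0).image mid
  have hS' : ∑ p ∈ S', w p.1 ≤ 2 ^ (l / 4) := by
    have h2 := sum_image_le (S₂.filter fun p => p.1 ≠ 0) mid (fun p => w p.1)
    have h4 : ∑ p ∈ S₂.filter (fun p => p.1 ≠ 0), w (mid p).1 =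
        ∑ p ∈ S₂.filter (fun p => p.1 ≠ 0), w p.2.1 := rfl
    have h3 : ∑ p ∈ S₂.filter (fun p => p.1 ≠ 0), w p.2.1 ≤
        ∑ p ∈ S₂, (if p.1 = 0 then 1 else w p.2.1) := by
      rw [Finset.sum_filter]
      refine Finset.sum_le_sum fun p _ => ?_
      by_cases h : p.1 = 0
      · simp [h]
      · simp [h]
    rw [h4] at h2
    exact h2.trans (h3.trans (by omega))
  obtain ⟨T, hTR, ⟨b, hb, hbpat⟩, hT⟩ := hpat l hl S' hS' R (by omega)
  let f : (Fin l → Bool) → (Fin (l + (l + l)) → Bool) := fun a => Fin.append z (Fin.append a b)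
  have hf : Function.Injective f := fun a a' h => hinj _ _ _ _ h
  let W₁ := (T.filter fun a => List.ofFn a ∉ pat).image f
  let W₂ := (T.filter fun a => List.ofFn a ∈ pat).image f
  have hW₁ : ∀ x ∈ W₁, List.ofFn x ∉ A := by
    intro x hx
    obtain ⟨a, ha, rfl⟩ := Finset.mem_image.1 hx
    intro h
    exact (Finset.mem_filter.1 ha).2 ((hz a b).1 h).1
  have hW₂ : ∀ x ∈ W₂, List.ofFn x ∈ A := by
    intro x hx
    obtain ⟨a, ha, rfl⟩ := Finset.mem_image.1 hx
    exact (hz a b).2 ⟨(Finset.mem_filter.1 ha).2, hbpat⟩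
  let B : Set (List Bool) := (A ∪ {w | ∃ x ∈ W₁, w = List.ofFn x}) \ {w | ∃ x ∈ W₂, w = List.ofFn x}
  -- membership
  have hmem : ∀ w, w ∈ B ↔ (w ∈ A ∧ ¬ ∃ a ∈ T, List.ofFn a ∈ pat ∧ w = List.ofFn (f a)) ∨
      ∃ a ∈ T, List.ofFn a ∉ pat ∧ w = List.ofFn (f a) := by
    intro w
    constructor
    · rintro ⟨h1 | ⟨x, hx, rfl⟩, h2⟩
      · left
        refine ⟨h1, ?_⟩
        rintro ⟨a, ha, hap, rfl⟩
        exact h2 ⟨f a, Finset.mem_image_of_mem _ (Finset.mem_filter.2 ⟨ha, hap⟩), rfl⟩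
      · right
        obtain ⟨a, ha, rfl⟩ := Finset.mem_image.1 hx
        exact ⟨a, (Finset.mem_filter.1 ha).1, (Finset.mem_filter.1 ha).2, rfl⟩
    · rintro (⟨h1, h2⟩ | ⟨a, ha, hap, rfl⟩)
      · refine ⟨Or.inl h1, ?_⟩
        rintro ⟨x, hx, rfl⟩
        obtain ⟨a, ha, rfl⟩ := Finset.mem_image.1 hx
        exact h2 ⟨a, (Finset.mem_filter.1 ha).1, (Finset.mem_filter.1 ha).2, rfl⟩
      · refine ⟨Or.inr ⟨f a, Finset.mem_image_of_mem _ (Finset.mem_filter.2 ⟨ha, hap⟩), rfl⟩, ?_⟩
        rintro ⟨x, hx, h⟩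
        obtain ⟨a', ha', rfl⟩ := Finset.mem_image.1 hx
        have h1 := hf (List.ofFn_injective h)
        rw [h1] at hap
        exact hap (Finset.mem_filter.1 ha').2
  refine ⟨B, T, b, hb, hbpat, hmem, ?_⟩
  rintro (u | ⟨n, i, y⟩) hp
  · -- a direct probe
    have hu : ∀ a ∈ T, u ≠ List.ofFn (f a) := by
      rintro a ha rfl
      refine Finset.disjoint_left.1 hTR ha (Finset.mem_image.2 ⟨_, Finset.mem_toLeft.2 hp, ?_⟩)
      funext j
      exact hmid a b j
    change u ∈ A ↔ u ∈ B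
    rw [hmem]
    constructor
    · intro h
      refine Or.inl ⟨h, ?_⟩
      rintro ⟨a, ha, _, h2⟩
      exact hu a ha h2
    · rintro (h | ⟨a, ha, _, h2⟩)
      · exact h.1
      · exact absurd h2 (hu a ha)
  · change mext A y = mext B y
    by_cases hn : n = l + (l + l)
    · subst hn
      have h1 := mext_union A W₁ hW₁ y
      have h2 := mext_union B W₂ (by
        intro x hx
        rintro ⟨_, h⟩
        exact h ⟨x, hx, rfl⟩) y
      have h3 : B ∪ {w | ∃ x ∈ W₂, w = List.ofFn x} = A ∪ {w | ∃ x ∈ W₁, w = List.ofFn x} := by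
        rw [Set.sdiff_union_self]
        refine Set.union_eq_self_of_subset_right ?_
        rintro w ⟨x, hx, rfl⟩
        exact Or.inl (hW₂ x hx)
      rw [h3, h1] at h2
      have h4 : ∑ x ∈ W₁, del x y = ∑ x ∈ W₂, del x y := by
        rw [Finset.sum_image fun a _ a' _ h => hf h, Finset.sum_image fun a _ a' _ h => hf h]
        simp only [f, del_append]
        rw [← Finset.mul_sum, ← Finset.mul_sum, ← Finset.sum_mul, ← Finset.sum_mul]
        have h5 := hT (mid ⟨l + (l + l), i, y⟩) (Finset.mem_image_of_mem _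
          (Finset.mem_filter.2 ⟨Finset.mem_toRight.2 hp, by
            change l + (l + l) ≠ 0
            omega⟩))
        have h6 : (mid ⟨l + (l + l), i, y⟩).2 =
            fun j => y (Fin.natAdd l (Fin.castAdd l j)) := by
          funext j
          have hj : l + (j : ℕ) < l + (l + l) := by have := j.2; omega
          change (if h : l + (j : ℕ) < l + (l + l) then y ⟨l + j, h⟩ else 0) = _
          rw [dif_pos hj]
          rfl
        rw [h6] at h5
        rw [h5]
      rw [h4] at h2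
      exact add_right_cancel h2
    · apply mext_of_ne
      intro w hw
      rw [hmem]
      have h1 : ∀ a, w ≠ List.ofFn (f a) := by
        rintro a rfl
        rw [List.length_ofFn] at hw
        omega
      constructor
      · intro h
        refine Or.inl ⟨h, ?_⟩
        rintro ⟨a, _, _, h2⟩
        exact h1 a h2
      · rintro (h | ⟨a, _, _, h2⟩)
        · exact h.1
        · exact absurd h2 (h1 a)

end block

end Pool.Agent.MP_92db0f_lc_mul
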