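import Pool.Agent.MP_92db0f_lc_mul.Block
import Pool.Agent.MP_92db0f_lc_alg.Bin

/-!
Configurations: counters that are coded into the oracle by blocks.
-/

set_option autoImplicit false

namespace Pool.Agent.MP_92db0f_lc_mul

open MP_92db0f_lc_alg

/-- a system of requirements: the requirement `r` of level `lv r` is coded by the strings
`cd r u ++ s`; `acc A r` says that the requirement is accepted relative to the oracle `A`, and
acceptance depends on probes of cost at most `2 ^ lv r` -/
structure Sys (E : ℕ → Type) [∀ i, CommRing (E i)] where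
  w : ℕ → ℕ
  pat : Set (List Bool)
  hpat : Universal E w pat
  Req : Type
  lv : Req → ℕ
  Rq : ℕ → Finset Req
  mem_Rq : ∀ m r, r ∈ Rq m ↔ lv r = m
  card_Rq : ∀ m, (Rq m).card ≤ 2 ^ (2 * m + 2)
  cd : Req → List Bool → List Bool
  cd_inj : ∀ r u r' u', cd r u = cd r' u' → r = r' ∧ u = u'
  cd_len : ∀ r u, 4 * (5 * lv r + 10) ≤ (cd r u).length
  acc : Set (List Bool) → Req → Prop
  use : ∀ A r, acc A r → ∃ S : Finset (Pr E), wt w S ≤ 2 ^ lv r ∧ ∀ B, Agree A B S → acc B r

variable {E : ℕ → Type} [∀ i, CommRing (E i)] (Y : Sys E)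

/-- the number of digits of the counter -/
def Sys.D (r : Y.Req) : ℕ := (Y.lv r + 4) ^ 2

/-- the initial oracle -/
def base (pat : Set (List Bool)) : Set (List Bool) :=
  {w | ∃ z a b : List Bool, a.length = z.length ∧ b.length = z.length ∧ w = z ++ (a ++ b) ∧
    a ∈ pat ∧ b ∉ pat}

/-- counters coded into the oracle -/
structure Conf where
  c : Y.Req → ℕ
  A : Set (List Bool)
  fin : {r | c r ≠ 0}.Finite
  mem : ∀ w, ¬ (w ∈ A ↔ w ∈ base Y.pat) → ∃ r u a b, u.length < Y.D r ∧
    w = Y.cd r u ++ (a ++ b) ∧ a.length = (Y.cd r u).length ∧ b.length = (Y.cd r u).length ∧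
    nn (Y.D r) u ≤ c r
  ex : ∀ r u, u.length < Y.D r → nn (Y.D r) u ≤ c r →
    ∃ b, b.length = (Y.cd r u).length ∧ Y.cd r u ++ (b ++ b) ∈ A
  uniq : ∀ z b b' : List Bool, b.length = z.length → b'.length = z.length →
    z ++ (b ++ b) ∈ A → z ++ (b' ++ b') ∈ A → b = b'

variable {Y}

lemma third {z z' a b a' b' : List Bool} (ha : a.length = z.length) (hb : b.length = z.length)
    (ha' : a'.length = z'.length) (hb' : b'.length = z'.length)
    (h : z ++ (a ++ b) = z' ++ (a' ++ b')) : z = z' ∧ a = a' ∧ b = b' := by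
  have hl := congrArg List.length h
  simp only [List.length_append] at hl
  obtain ⟨h1, h2⟩ := List.append_inj h (by omega)
  obtain ⟨h3, h4⟩ := List.append_inj h2 (by omega)
  exact ⟨h1, h3, h4⟩

lemma mem_base {pat : Set (List Bool)} {z a b : List Bool} (ha : a.length = z.length)
    (hb : b.length = z.length) : z ++ (a ++ b) ∈ base pat ↔ (a ∈ pat ∧ b ∉ pat) := by
  constructor
  · rintro ⟨z', a', b', ha', hb', h, h1, h2⟩
    obtain ⟨-, e2, e3⟩ := third ha hb ha' hb' h
    rw [e2, e3]
    exact ⟨h1, h2⟩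
  · rintro ⟨h1, h2⟩
    exact ⟨z, a, b, ha, hb, rfl, h1, h2⟩

open Classical in
/-- One counter is increased. -/
lemma Conf.bump (κ : Conf Y) (r : Y.Req) (hc : κ.c r + 1 < 2 ^ Y.D r) (S : Finset (Pr E))
    (hS : wt Y.w S < 2 ^ (5 * Y.lv r + 10)) :
    ∃ κ' : Conf Y, κ'.c = Function.update κ.c r (κ.c r + 1) ∧ Agree κ.A κ'.A S ∧
      ∀ w : List Bool, w.length < 10 * Y.lv r + 20 → (w ∈ κ'.A ↔ w ∈ κ.A) := by
  obtain ⟨u, hu, hn⟩ := exists_nn (Nat.succ_pos (κ.c r)) hc
  have hn' : nn (Y.D r) u = κ.c r + 1 := hn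
  set z := Y.cd r u with hz
  have hzl : 4 * (5 * Y.lv r + 10) ≤ z.length := Y.cd_len r u
  -- the block is as in the initial oracle
  have hblock : ∀ a b : List Bool, a.length = z.length → b.length = z.length →
      (z ++ (a ++ b) ∈ κ.A ↔ (a ∈ Y.pat ∧ b ∉ Y.pat)) := by
    intro a b ha hb
    rw [← mem_base ha hb]
    by_contra hmem
    obtain ⟨r', u', a', b', hu', he, ha', hb', hle⟩ := κ.mem _ hmem
    obtain ⟨h1, -, -⟩ := third ha hb ha' hb' he
    obtain ⟨h3, h4⟩ := Y.cd_inj _ _ _ _ (hz.symm.trans h1)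
    subst h3
    subst h4
    omega
  have hcat : ∀ a b : Fin z.length → Bool, List.ofFn (Fin.append z.get (Fin.append a b)) =
      z ++ (List.ofFn a ++ List.ofFn b) := by
    intro a b
    rw [List.ofFn_fin_append, List.ofFn_fin_append, List.ofFn_get]
  obtain ⟨B, T, b₀, hb₀, hb₀p, hB, hBS⟩ := exists_block Y.hpat κ.A S z.length (by omega)
    z.get
    (fun a b => by
      rw [hcat]
      exact hblock _ _ (List.length_ofFn) (List.length_ofFn))
    (hS.le.trans (Nat.pow_le_pow_right (by norm_num) (by omega)))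
  set b₁ := List.ofFn b₀ with hb₁
  have hb₁l : b₁.length = z.length := List.length_ofFn
  simp only [hcat] at hB
  -- nothing changes outside of the column `b₁` of the block
  have hout : ∀ w, (∀ a : Fin z.length → Bool, w ≠ z ++ (List.ofFn a ++ b₁)) →
      (w ∈ B ↔ w ∈ κ.A) := by
    intro w hw
    rw [hB]
    constructor
    · rintro (h | ⟨a, _, _, h⟩)
      · exact h.1
      · exact absurd h (hw a)
    · intro h
      refine Or.inl ⟨h, ?_⟩
      rintro ⟨a, _, _, h'⟩
      exact hw a h'
  have hin : z ++ (b₁ ++ b₁) ∈ B := (hB _).2 (Or.inr ⟨b₀, hb₀, hb₀p, rfl⟩)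
  -- a diagonal string of the block
  have hdiag : ∀ b : List Bool, b.length = z.length → z ++ (b ++ b) ∈ B → b = b₁ := by
    intro b hb h
    by_contra hne
    rw [hout _ (fun a h' => hne (third hb hb (List.length_ofFn) hb₁l h').2.2), hblock b b hb hb] at h
    exact h.2 h.1
  refine ⟨⟨Function.update κ.c r (κ.c r + 1), B, ?_, ?_, ?_, ?_⟩, rfl, hBS, ?_⟩
  · refine (κ.fin.insert r).subset ?_
    intro r' hr'
    by_cases h : r' = r
    · exact Or.inl h
    · right
      simpa [Function.update_of_ne h] using hr'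
  · intro w hw
    by_cases hcol : ∃ a : Fin z.length → Bool, w = z ++ (List.ofFn a ++ b₁)
    · obtain ⟨a, rfl⟩ := hcol
      refine ⟨r, u, List.ofFn a, b₁, hu, rfl, List.length_ofFn, hb₁l, ?_⟩
      rw [Function.update_self]
      exact hn'.le
    · rw [hout w (fun a h => hcol ⟨a, h⟩)] at hw
      obtain ⟨r', u', a', b', h1, h2, h3, h4, h5⟩ := κ.mem w hw
      refine ⟨r', u', a', b', h1, h2, h3, h4, h5.trans ?_⟩
      by_cases h : r' = r
      · subst h
        rw [Function.update_self]
        omega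
      · rw [Function.update_of_ne h]
  · intro r' u' hu' hle
    by_cases hru : Y.cd r' u' = z
    · obtain ⟨h3, h4⟩ := Y.cd_inj _ _ _ _ (hru.trans hz)
      subst h3
      subst h4
      exact ⟨b₁, hb₁l, hin⟩
    · have hle' : nn (Y.D r') u' ≤ κ.c r' := by
        by_cases h : r' = r
        · subst h
          rw [Function.update_self] at hle
          by_contra hlt
          have h2 : nn (Y.D r') u' = nn (Y.D r') u := by omega
          rw [nn_inj hu' hu h2] at hru
          exact hru rfl
        · rwa [Function.update_of_ne h] at hle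
      obtain ⟨b, hb, hm⟩ := κ.ex r' u' hu' hle'
      refine ⟨b, hb, (hout _ fun a h => hru ?_).2 hm⟩
      exact (third hb hb (List.length_ofFn) hb₁l h).1
  · intro z' b b' hb hb' h1 h2
    by_cases hzz : z' = z
    · subst hzz
      exact (hdiag b hb h1).trans (hdiag b' hb' h2).symm
    · rw [hout _ (fun a h => hzz (third hb hb (List.length_ofFn) hb₁l h).1)] at h1
      rw [hout _ (fun a h => hzz (third hb' hb' (List.length_ofFn) hb₁l h).1)] at h2
      exact κ.uniq z' b b' hb hb' h1 h2
  · intro w hw2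
    refine hout w fun a h => ?_
    rw [h, List.length_append, List.length_append, hb₁l, List.length_ofFn] at hw2
    omega

open Classical in
/-- Several counters of levels at least `m` are increased. -/
lemma Conf.bumps (m : ℕ) (S : Finset (Pr E)) (hS : wt Y.w S < 2 ^ (5 * m + 10))
    (T : Finset Y.Req) :
    (∀ r ∈ T, m ≤ Y.lv r) → ∀ κ : Conf Y, (∀ r ∈ T, κ.c r + 1 < 2 ^ Y.D r) →
    ∃ κ' : Conf Y, (∀ r, κ'.c r = if r ∈ T then κ.c r + 1 else κ.c r) ∧ Agree κ.A κ'.A S ∧
      ∀ w : List Bool, w.length < 10 * m + 20 → (w ∈ κ'.A ↔ w ∈ κ.A) := by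
  induction T using Finset.induction_on with
  | empty =>
    intro _ κ _
    exact ⟨κ, fun r => by simp, Agree.refl _ _, fun _ _ => Iff.rfl⟩
  | insert r T hr ih =>
    intro hT κ hc
    obtain ⟨κ₁, h1, h2, h4⟩ := ih (fun r' hr' => hT r' (Finset.mem_insert_of_mem hr')) κ
      (fun r' hr' => hc r' (Finset.mem_insert_of_mem hr'))
    have hm := hT r (Finset.mem_insert_self _ _)
    have hr1 : κ₁.c r = κ.c r := by rw [h1, if_neg hr]
    have hS' : wt Y.w S < 2 ^ (5 * Y.lv r + 10) :=
      lt_of_lt_of_le hS (Nat.pow_le_pow_right (by norm_num) (by omega))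
    obtain ⟨κ₂, g1, g2, g4⟩ := κ₁.bump r
      (by rw [hr1]; exact hc r (Finset.mem_insert_self _ _)) S hS'
    refine ⟨κ₂, ?_, h2.trans g2, fun w hw => (g4 w (by omega)).trans (h4 w hw)⟩
    intro r'
    rw [g1]
    by_cases h : r' = r
    · subst h
      rw [Function.update_self, if_pos (Finset.mem_insert_self _ _), hr1]
    · rw [Function.update_of_ne h, h1]
      simp only [Finset.mem_insert, h, false_or]

/-- the initial configuration -/
def Conf.init (Y : Sys E) : Conf Y where
  c := fun _ => 0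
  A := base Y.pat
  fin := by simp
  mem := fun w hw => absurd Iff.rfl hw
  ex := fun r u _ h => by
    have := nn_pos (Y.D r) u
    omega
  uniq := fun z b b' hb hb' h _ => by
    rw [mem_base hb hb] at h
    exact absurd h.1 h.2

end Pool.Agent.MP_92db0f_lc_mul
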