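import Pool.Agent.MP_92db0f_lc_alg.Defs

/-!
The multilinear extension of an oracle over finite commutative rings.
-/

set_option autoImplicit false

namespace Pool.Agent.MP_92db0f_lc_mul

open Computability Lib.helper60 MP_92db0f_lc_alg

/-- The value at the point `y` of the multilinear polynomial in `n` variables that is equal to the
characteristic function of the oracle `A` on `{0,1}^n`. -/
noncomputable def mext {E : Type} [CommRing E] (A : Set (List Bool)) {n : ℕ} (y : Fin n → E) : E := by
  classical
  exact ∑ x : Fin n → Bool, if List.ofFn x ∈ A then ∏ j, (if x j then y j else 1 - y j) else 0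

/-- The code of the query for the bit with number `b` of the value at the point `y` over the ring
`E i`, whose elements are written as strings of `len i` bits by `cod i`. -/
def mquery {E : ℕ → Type} {len : ℕ → ℕ} (cod : (i : ℕ) → E i → Fin (len i) → Bool) (i : ℕ)
    (y : List (E i)) (b : ℕ) : List Bool :=
  encPair (encodeNat i, encPair (encodeNat b, encList (y.map fun t => List.ofFn (cod i t))))

/-- The multilinear extension of `A` over all rings `E i` as an oracle: it gives the bits of the
codes of the values of the extension at all points. -/
def mextOracle {E : ℕ → Type} [∀ i, CommRing (E i)] {len : ℕ → ℕ}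
    (cod : (i : ℕ) → E i → Fin (len i) → Bool) (A : Set (List Bool)) : Set (List Bool) :=
  {w | ∃ (i n : ℕ) (y : Fin n → E i) (b : Fin (len i)), w = mquery cod i (List.ofFn y) b ∧
    cod i (mext A y) b = true}

end Pool.Agent.MP_92db0f_lc_mul
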