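import Pool.Agent.MP_92db0f_lc_mul.Machines

/-!
The world in which nondeterministic exponential time with access to the oracle and its multilinear
extension is contained in polynomial time with an oracle in `UP`.
-/

set_option autoImplicit false

namespace Pool.Agent.MP_92db0f_lc_mul

open Turing Computability Lib.helper60 MP_92db0f_lc MP_92db0f_lc_alg

/-- the beginnings of the strings `z ++ b ++ b` of the oracle -/
def thirds (A : Set (List Bool)) : Set (List Bool) :=
  {z | ∃ b : List Bool, b.length = z.length ∧ z ++ (b ++ b) ∈ A}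

lemma inUP_thirds (A : Set (List Bool)) (h : ∀ z b b' : List Bool, b.length = z.length →
    b'.length = z.length → z ++ (b ++ b) ∈ A → z ++ (b' ++ b') ∈ A → b = b') :
    InUP A (thirds A) := by
  refine ⟨fun p => p.2.length = p.1.length ∧ p.1 ++ (p.2 ++ p.2) ∈ A, Polynomial.X, ?_, ?_⟩
  · have h1 : PT (fun w : List Bool => unpair (unpair w).1) := PT_unpair.comp PT_unpair.p1
    refine ⟨fun z => z.1.1 ++ (z.1.2 ++ z.1.2), fun z => decide (z.1.2.length = z.1.1.length) &&
      z.2.headD false, 1, ?_, ?_, ?_⟩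
    · refine PT.toTM2 (F := fun w => (unpair (unpair w).1).1 ++
        ((unpair (unpair w).1).2 ++ (unpair (unpair w).1).2)) ?_ ?_
      · exact PT.append h1.p1 (PT.append h1.p2 h1.p2)
      · intro a
        simp only [unpair_enc]
    · refine PT.decider (F := fun w => decide ((unpair (unpair w).1).2.length =
        (unpair (unpair w).1).1.length) && (unpair w).2.headD false) ?_ ?_
      · exact PT.band (PT.neq (PT.length h1.p2) (PT.length h1.p1))
          (PT.headD PT_unpair.p2 (PT.const false))
      · intro a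
        simp only [unpair_enc]
    · rintro ⟨x, y⟩
      simp [answers]
  · intro x
    refine ⟨⟨?_, ?_⟩, ?_⟩
    · rintro ⟨s, hs, hA⟩
      exact ⟨s, by simp [hs], hs, hA⟩
    · rintro ⟨s, _, hs, hA⟩
      exact ⟨s, hs, hA⟩
    · rintro y y' _ _ ⟨h1, h2⟩ ⟨h3, h4⟩
      exact h x y y' h1 h3 h2 h4

/-- **The world.** -/
theorem barrier {E : ℕ → Type} [∀ i, CommRing (E i)] {len : ℕ → ℕ}
    (cod : (i : ℕ) → E i → Fin (len i) → Bool) (hcod : ∀ i, Function.Injective (cod i)) :
    ∃ A : Set (List Bool), ∀ L, InNEXP (join A (mextOracle cod A)) L → InPUP A L := by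
  obtain ⟨g, hg⟩ := exists_surjective_nat Mach
  obtain ⟨Y, κ, f, hlv, hcd, hacc⟩ := exists_sys cod hcod g
  obtain ⟨A, c, hc, hodd, hcode, huniq⟩ := exists_limit Y
  refine ⟨A, fun L hL => ⟨thirds A, inUP_thirds _ huniq, ?_⟩⟩
  obtain ⟨μ, hμ⟩ := exists_mach hL
  obtain ⟨e, rfl⟩ := hg μ
  have hx : PT (fun w : List Bool => (unpair w).1) := PT_unpair.p1
  have hv : PT (fun w : List Bool => (unpair w).2) := PT_unpair.p2
  refine ⟨fun z => cdR (fun e x => (x.length + κ e) ^ κ e) (e, z.1) z.2,
    fun z => z.2.reverse.headD false, ((Polynomial.X + Polynomial.C (κ e)) ^ κ e + 4) ^ 2,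
    ?_, ?_, ?_⟩
  · refine PT.toTM2 (F := fun w => encPair (List.replicate
      (4 * (5 * ((unpair w).1.length + κ e) ^ κ e + 10)) true,
      encPair (List.replicate e true, encPair ((unpair w).1, (unpair w).2)))) ?_ ?_
    · refine PT_encPair (PT.replicate ?_ (PT.const true)) (PT_encPair (PT.const _)
        (PT_encPair hx hv))
      exact PT.nmul (PT.const 4) (PT.nadd (PT.nmul (PT.const 5)
        (PT_npow (PT.nadd (PT.length hx) (PT.const (κ e))) (κ e))) (PT.const 10))
    · rintro ⟨x, v⟩
      rw [unpair_enc]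
      rfl
  · refine PT.decider (F := fun w => (unpair w).2.reverse.headD false)
      (PT.headD (PT.reverse hv) (PT.const false)) ?_
    rintro ⟨x, v⟩
    rw [unpair_enc]
  · intro x
    have hD : Polynomial.eval x.length
        (((Polynomial.X + Polynomial.C (κ e)) ^ κ e + 4) ^ 2) = Y.D (f (e, x)) := by
      rw [Sys.D, hlv]
      simp
    dsimp only
    rw [hD, odd_vb, search (thirds A) _ x (Y.D (f (e, x))) (c (f (e, x))) (hc _), ← hodd, hacc,
      hμ x]
    · rfl
    · intro u hu
      have h1 := hcode (f (e, x)) u hu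
      rw [hcd] at h1
      exact h1

end Pool.Agent.MP_92db0f_lc_mul
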