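import Pool.Agent.MP_92db0f_lc_mul.Conf

/-!
Legal configurations and the injury step.
-/

set_option autoImplicit false

namespace Pool.Agent.MP_92db0f_lc_mul

variable {E : ℕ → Type} [∀ i, CommRing (E i)] {Y : Sys E}

/-- the sum of the counters of levels below `m` -/
def W (Y : Sys E) (c : Y.Req → ℕ) (m : ℕ) : ℕ := ∑ j ∈ Finset.range m, ∑ r ∈ Y.Rq j, c r

lemma W_mono {c c' : Y.Req → ℕ} (h : ∀ r, c r ≤ c' r) (m : ℕ) : W Y c m ≤ W Y c' m :=
  Finset.sum_le_sum fun _ _ => Finset.sum_le_sum fun r _ => h r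

lemma W_lt {c c' : Y.Req → ℕ} (h : ∀ r, c r ≤ c' r) {r₀ : Y.Req} (h₀ : c r₀ < c' r₀) {m : ℕ}
    (hm : Y.lv r₀ < m) : W Y c m < W Y c' m :=
  Finset.sum_lt_sum (fun _ _ => Finset.sum_le_sum fun r _ => h r)
    ⟨Y.lv r₀, Finset.mem_range.2 hm, Finset.sum_lt_sum (fun r _ => h r)
      ⟨r₀, (Y.mem_Rq _ _).2 rfl, h₀⟩⟩

/-- A legal configuration: the requirements with an odd counter are accepted for good as long as
the values at the points of `Sf r` do not change, and the counter of `r` is bounded by means of the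
counters of smaller levels. -/
structure LC (Y : Sys E) where
  κ : Conf Y
  Sf : Y.Req → Finset (Pr E)
  cert : ∀ r, Odd (κ.c r) → wt Y.w (Sf r) ≤ 2 ^ Y.lv r ∧ ∀ B, Agree κ.A B (Sf r) → Y.acc B r
  low : ∀ r, κ.c r / 2 ≤ W Y κ.c (Y.lv r)

lemma LC.W_bound (a : LC Y) (m : ℕ) : 1 + 2 * W Y a.κ.c m ≤ 2 ^ (m * (m + 3)) := by
  induction m with
  | zero => simp [W]
  | succ m ih =>
    have h1 : W Y a.κ.c (m + 1) = W Y a.κ.c m + ∑ r ∈ Y.Rq m, a.κ.c r := by
      unfold W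
      rw [Finset.sum_range_succ]
    have h2 : ∑ r ∈ Y.Rq m, a.κ.c r ≤ 2 ^ (2 * m + 2) * (1 + 2 * W Y a.κ.c m) := by
      have h3 : ∀ r ∈ Y.Rq m, a.κ.c r ≤ 1 + 2 * W Y a.κ.c m := by
        intro r hr
        have h4 := a.low r
        rw [(Y.mem_Rq m r).1 hr] at h4
        omega
      refine (Finset.sum_le_card_nsmul _ _ _ h3).trans ?_
      rw [smul_eq_mul]
      exact Nat.mul_le_mul_right _ (Y.card_Rq m)
    have h3 : (m + 1) * (m + 1 + 3) = m * (m + 3) + (2 * m + 4) := by ring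
    rw [h1, h3, pow_add]
    have h4 : 1 + 2 * (W Y a.κ.c m + ∑ r ∈ Y.Rq m, a.κ.c r) ≤
        (1 + 2 * W Y a.κ.c m) * 2 ^ (2 * m + 4) := by
      have h5 : 2 ^ (2 * m + 4) = 4 * 2 ^ (2 * m + 2) := by rw [pow_add, pow_add]; ring
      have h6 : 0 < 2 ^ (2 * m + 2) := by positivity
      rw [h5]
      nlinarith
    exact h4.trans (Nat.mul_le_mul_right _ ih)

lemma LC.c_lt (a : LC Y) (r : Y.Req) : a.κ.c r + 1 < 2 ^ Y.D r := by
  have h1 := a.low r
  have h2 := a.W_bound (Y.lv r)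
  have h3 : 2 * 2 ^ (Y.lv r * (Y.lv r + 3)) ≤ 2 ^ Y.D r := by
    rw [← pow_succ']
    apply Nat.pow_le_pow_right (by norm_num)
    unfold Sys.D
    nlinarith
  have h4 : 0 < 2 ^ (Y.lv r * (Y.lv r + 3)) := by positivity
  have h5 : 2 ^ (Y.lv r * (Y.lv r + 3)) + 1 < 2 ^ Y.D r := by
    have h6 : 4 * 2 ^ (Y.lv r * (Y.lv r + 3)) ≤ 2 ^ Y.D r := by
      have : 4 * 2 ^ (Y.lv r * (Y.lv r + 3)) = 2 ^ (Y.lv r * (Y.lv r + 3) + 2) := by
        rw [pow_add]; ring
      rw [this]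
      apply Nat.pow_le_pow_right (by norm_num)
      unfold Sys.D
      nlinarith
    omega
  omega

/-- a step at level `m` -/
structure StepAt (m : ℕ) (a b : LC Y) : Prop where
  below : ∀ r, Y.lv r < m → b.κ.c r = a.κ.c r
  inc : ∑ r ∈ Y.Rq m, a.κ.c r < ∑ r ∈ Y.Rq m, b.κ.c r
  mono : ∀ r, a.κ.c r ≤ b.κ.c r
  keep : ∀ r, Y.lv r ≤ m → Odd (a.κ.c r) →
    b.κ.c r = a.κ.c r ∧ b.Sf r = a.Sf r ∧ Agree a.κ.A b.κ.A (a.Sf r)
  out : ∀ w : List Bool, w.length < 10 * m + 20 → (w ∈ b.κ.A ↔ w ∈ a.κ.A)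

open Classical in
/-- A requirement that is accepted although its counter is even can act. -/
lemma LC.act (a : LC Y) (r₀ : Y.Req) (he : ¬ Odd (a.κ.c r₀)) (hacc : Y.acc a.κ.A r₀) :
    ∃ b : LC Y, StepAt (Y.lv r₀) a b := by
  set m := Y.lv r₀ with hm
  obtain ⟨S₀, hS₀c, hS₀⟩ := Y.use _ _ hacc
  let S₁ : Finset (Pr E) := (Finset.range (m + 1)).biUnion fun j =>
    (Y.Rq j).biUnion fun r => if Odd (a.κ.c r) then a.Sf r else ∅
  have hS₁ : ∀ r, Y.lv r ≤ m → Odd (a.κ.c r) → a.Sf r ⊆ S₁ := by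
    intro r hr ho p hp
    rw [Finset.mem_biUnion]
    refine ⟨Y.lv r, Finset.mem_range.2 (by omega), ?_⟩
    rw [Finset.mem_biUnion]
    exact ⟨r, (Y.mem_Rq _ _).2 rfl, by rw [if_pos ho]; exact hp⟩
  have hc1 : wt Y.w S₁ ≤ (m + 1) * (2 ^ (2 * m + 2) * 2 ^ m) := by
    refine (wt_biUnion_le _ _ _).trans ?_
    have h1 : ∀ j ∈ Finset.range (m + 1),
        wt Y.w ((Y.Rq j).biUnion fun r => if Odd (a.κ.c r) then a.Sf r else ∅) ≤
          2 ^ (2 * m + 2) * 2 ^ m := by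
      intro j hj
      rw [Finset.mem_range] at hj
      refine (wt_biUnion_le _ _ _).trans ?_
      have h2 : ∀ r ∈ Y.Rq j, wt Y.w (if Odd (a.κ.c r) then a.Sf r else ∅ : Finset (Pr E)) ≤ 2 ^ m := by
        intro r hr
        split_ifs with ho
        · refine (a.cert r ho).1.trans (Nat.pow_le_pow_right (by norm_num) ?_)
          rw [(Y.mem_Rq j r).1 hr]
          omega
        · simp
      refine (Finset.sum_le_card_nsmul _ _ _ h2).trans ?_
      rw [smul_eq_mul]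
      apply Nat.mul_le_mul_right
      exact (Y.card_Rq j).trans (Nat.pow_le_pow_right (by norm_num) (by omega))
    refine (Finset.sum_le_card_nsmul _ _ _ h1).trans ?_
    rw [smul_eq_mul, Finset.card_range]
  let S := S₀ ∪ S₁
  have hS : wt Y.w S < 2 ^ (5 * m + 10) := by
    have h1 := wt_union_le Y.w S₀ S₁
    have h2 : m + 1 ≤ 2 ^ m := Nat.lt_two_pow_self
    have h3 : (m + 1) * (2 ^ (2 * m + 2) * 2 ^ m) ≤ 2 ^ m * (2 ^ (2 * m + 2) * 2 ^ m) :=
      Nat.mul_le_mul_right _ h2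
    have h4 : 2 ^ m * (2 ^ (2 * m + 2) * 2 ^ m) = 2 ^ (4 * m + 2) := by
      rw [← pow_add, ← pow_add]
      congr 1
      ring
    have h5 : 2 ^ m ≤ 2 ^ (4 * m + 2) := Nat.pow_le_pow_right (by norm_num) (by omega)
    have h6 : 2 ^ (4 * m + 2) * 2 < 2 ^ (5 * m + 10) := by
      rw [← pow_succ]
      exact Nat.pow_lt_pow_right (by norm_num) (by omega)
    have h7 : wt Y.w S₀ ≤ 2 ^ m := hS₀c
    change wt Y.w (S₀ ∪ S₁) < _
    omega
  let T : Finset Y.Req := insert r₀ (a.κ.fin.toFinset.filter fun r => m < Y.lv r ∧ Odd (a.κ.c r))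
  have hT : ∀ r, r ∈ T ↔ r = r₀ ∨ (m < Y.lv r ∧ Odd (a.κ.c r)) := by
    intro r
    simp only [T, Finset.mem_insert, Finset.mem_filter, Set.Finite.mem_toFinset, Set.mem_ofPred_eq]
    constructor
    · rintro (h | ⟨_, h⟩)
      · exact Or.inl h
      · exact Or.inr h
    · rintro (h | h)
      · exact Or.inl h
      · refine Or.inr ⟨?_, h⟩
        intro h0
        rw [h0] at h
        exact absurd h.2 (by decide)
  obtain ⟨κ', h1, h2, h4⟩ := Conf.bumps (Y := Y) m S hS T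
    (fun r hr => by
      rcases (hT r).1 hr with h | h
      · rw [h]
      · exact h.1.le) a.κ (fun r _ => a.c_lt r)
  have hr₀ : κ'.c r₀ = a.κ.c r₀ + 1 := by rw [h1, if_pos ((hT _).2 (Or.inl rfl))]
  have hmono : ∀ r, a.κ.c r ≤ κ'.c r := by
    intro r
    rw [h1]
    split_ifs <;> omega
  have hlow : ∀ r, Y.lv r ≤ m → r ≠ r₀ → κ'.c r = a.κ.c r := by
    intro r hr hne
    rw [h1, if_neg]
    intro h
    rcases (hT r).1 h with h | h
    · exact hne h
    · omega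
  have hodd : ∀ r, r ≠ r₀ → Odd (κ'.c r) → Y.lv r ≤ m ∧ Odd (a.κ.c r) := by
    intro r hne ho
    rw [h1] at ho
    split_ifs at ho with h
    · rcases (hT r).1 h with h | h
      · exact absurd h hne
      · exfalso
        have h5 := h.2
        rw [Nat.odd_iff] at h5 ho
        omega
    · refine ⟨?_, ho⟩
      by_contra hlt
      exact h ((hT r).2 (Or.inr ⟨by omega, ho⟩))
  have hne' : ∀ r, Odd (a.κ.c r) → r ≠ r₀ := by
    rintro r ho rfl
    exact he ho
  refine ⟨⟨κ', Function.update a.Sf r₀ S₀, ?_, ?_⟩, ?_⟩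
  · intro r ho
    by_cases hr : r = r₀
    · subst hr
      rw [Function.update_self]
      exact ⟨hS₀c, fun τ hτ => hS₀ τ ((h2.mono Finset.subset_union_left).trans hτ)⟩
    · rw [Function.update_of_ne hr]
      obtain ⟨h5, h6⟩ := hodd r hr ho
      have h7 := a.cert r h6
      exact ⟨h7.1, fun τ hτ => h7.2 τ ((h2.mono ((hS₁ r h5 h6).trans
        Finset.subset_union_right)).trans hτ)⟩
  · intro r
    have h5 := a.low r
    have h6 := W_mono hmono (Y.lv r)
    rcases Nat.lt_or_ge m (Y.lv r) with hlt | hge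
    · have h7 := W_lt hmono (by rw [hr₀]; omega : a.κ.c r₀ < κ'.c r₀) hlt
      have h8 : κ'.c r ≤ a.κ.c r + 1 := by
        rw [h1]
        split_ifs <;> omega
      omega
    · by_cases hr : r = r₀
      · subst hr
        rw [hr₀]
        rw [Nat.not_odd_iff_even, Nat.even_iff] at he
        omega
      · rw [hlow r hge hr]
        omega
  · refine ⟨?_, ?_, hmono, ?_, h4⟩
    · intro r hr
      refine hlow r hr.le ?_
      rintro rfl
      omega
    · exact Finset.sum_lt_sum (fun r _ => hmono r)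
        ⟨r₀, (Y.mem_Rq _ _).2 rfl, by change a.κ.c r₀ < κ'.c r₀; rw [hr₀]; omega⟩
    · intro r hr ho
      refine ⟨hlow r hr (hne' r ho), ?_, h2.mono ((hS₁ r hr ho).trans Finset.subset_union_right)⟩
      exact Function.update_of_ne (hne' r ho) _ _

/-- the initial configuration -/
def LC.init (Y : Sys E) : LC Y where
  κ := Conf.init Y
  Sf := fun _ => ∅
  cert := fun r h => absurd (show Odd 0 from h) (by decide)
  low := fun r => by
    change 0 / 2 ≤ _
    rw [Nat.zero_div]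
    exact Nat.zero_le _

end Pool.Agent.MP_92db0f_lc_mul
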