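import Pool.Agent.MP_92db0f_lc_mul.Defs

/-!
Probes of the oracle and of its multilinear extension.
-/

set_option autoImplicit false

namespace Pool.Agent.MP_92db0f_lc_mul

/-- a sample point: the number of variables, the number of the ring, and the point -/
abbrev Pt (E : ℕ → Type) : Type := (n : ℕ) × (i : ℕ) × (Fin n → E i)

/-- a probe of the oracle or of its multilinear extension -/
abbrev Pr (E : ℕ → Type) : Type := List Bool ⊕ Pt E

variable {E : ℕ → Type}

/-- the cost of a probe -/
def cost (w : ℕ → ℕ) : Pr E → ℕ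
  | .inl _ => 1
  | .inr p => if p.1 = 0 then 1 else w p.2.1

/-- the cost of a set of probes -/
def wt (w : ℕ → ℕ) (S : Finset (Pr E)) : ℕ := ∑ p ∈ S, cost w p

@[simp] lemma wt_empty (w : ℕ → ℕ) : wt w (∅ : Finset (Pr E)) = 0 := rfl

lemma wt_singleton (w : ℕ → ℕ) (p : Pr E) : wt w {p} = cost w p := by simp [wt]

open Classical in
lemma wt_union_le (w : ℕ → ℕ) (S T : Finset (Pr E)) : wt w (S ∪ T) ≤ wt w S + wt w T := by
  unfold wt
  have := Finset.sum_union_inter (s₁ := S) (s₂ := T) (f := fun p : Pr E => cost w p)
  omega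

open Classical in
lemma wt_biUnion_le (w : ℕ → ℕ) {ι : Type} (s : Finset ι) (f : ι → Finset (Pr E)) :
    wt w (s.biUnion f) ≤ ∑ i ∈ s, wt w (f i) := by
  induction s using Finset.induction_on with
  | empty => simp
  | insert i s hi ih =>
    rw [Finset.biUnion_insert, Finset.sum_insert hi]
    exact (wt_union_le w _ _).trans (Nat.add_le_add_left ih _)

variable [∀ i, CommRing (E i)]

/-- the answer to the probe is the same -/
def Same (A B : Set (List Bool)) : Pr E → Prop
  | .inl w => w ∈ A ↔ w ∈ B
  | .inr p => mext A p.2.2 = mext B p.2.2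

/-- the same answers to the probes in `S` -/
def Agree (A B : Set (List Bool)) (S : Finset (Pr E)) : Prop := ∀ p ∈ S, Same A B p

lemma Same.refl (A : Set (List Bool)) (p : Pr E) : Same A A p := by
  cases p
  · exact Iff.rfl
  · exact rfl

lemma Same.trans {A B C : Set (List Bool)} {p : Pr E} (h : Same A B p) (h' : Same B C p) :
    Same A C p := by
  cases p
  · exact Iff.trans h h'
  · exact Eq.trans h h'

lemma Same.symm {A B : Set (List Bool)} {p : Pr E} (h : Same A B p) : Same B A p := by
  cases p
  · exact Iff.symm h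
  · exact Eq.symm h

lemma Agree.refl (A : Set (List Bool)) (S : Finset (Pr E)) : Agree A A S :=
  fun p _ => Same.refl A p

lemma Agree.trans {A B C : Set (List Bool)} {S : Finset (Pr E)} (h : Agree A B S)
    (h' : Agree B C S) : Agree A C S := fun p hp => (h p hp).trans (h' p hp)

lemma Agree.symm {A B : Set (List Bool)} {S : Finset (Pr E)} (h : Agree A B S) : Agree B A S :=
  fun p hp => (h p hp).symm

lemma Agree.mono {A B : Set (List Bool)} {S T : Finset (Pr E)} (h : Agree A B T) (hST : S ⊆ T) :
    Agree A B S := fun p hp => h p (hST hp)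

end Pool.Agent.MP_92db0f_lc_mul
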